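import Mathlib

namespace Pool.Agent.Results.MP_5bed1d_al.ZMJoin

universe u

/-- An algebra `⟨A; →, 0⟩` of type `(2, 0)`. -/
structure Alg : Type (u + 1) where
  /-- the underlying set -/
  carrier : Type u
  /-- the binary operation `→` -/
  imp : carrier → carrier → carrier
  /-- the constant `0` -/
  zero : carrier

/-- `x' = x → 0`. -/
def Alg.pr (A : Alg.{u}) (x : A.carrier) : A.carrier := A.imp x A.zero

/-- `A` is an implication zroupoid: `(x → y) → z = ((z' → x) → (y → z)')'` and `0'' = 0`. -/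
def Alg.IsIZ (A : Alg.{u}) : Prop :=
  (∀ x y z : A.carrier, A.imp (A.imp x y) z =
    A.pr (A.imp (A.imp (A.pr z) x) (A.pr (A.imp y z)))) ∧
  A.pr (A.pr A.zero) = A.zero

/-- `f : A → B` is a homomorphism. -/
def IsHom (A B : Alg.{u}) (f : A.carrier → B.carrier) : Prop :=
  (∀ x y, f (A.imp x y) = B.imp (f x) (f y)) ∧ f A.zero = B.zero

/-- The direct product of a family of algebras. -/
def prod {I : Type u} (A : I → Alg.{u}) : Alg.{u} where
  carrier := ∀ i, (A i).carrier
  imp f g := fun i => (A i).imp (f i) (g i)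
  zero := fun i => (A i).zero

/-- A variety of implication zroupoids: a class of implication zroupoids that is closed under
isomorphic copies of subalgebras, homomorphic images and direct products. -/
structure IsVariety (K : Alg.{u} → Prop) : Prop where
  iz : ∀ A, K A → A.IsIZ
  sub : ∀ (A B : Alg.{u}) (f : A.carrier → B.carrier), IsHom A B f → Function.Injective f →
    K B → K A
  quot : ∀ (A B : Alg.{u}) (f : A.carrier → B.carrier), IsHom A B f → Function.Surjective f →
    K A → K B
  prod : ∀ {I : Type u} (A : I → Alg.{u}), (∀ i, K (A i)) → K (prod A)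

/-- The order of the lattice of varieties: inclusion. -/
def Sub (X Y : Alg.{u} → Prop) : Prop := ∀ A, X A → Y A

/-- The join `X ∨ Y`: the variety generated by `X ∪ Y`, that is, the intersection of all
varieties of implication zroupoids that contain `X` and `Y`. -/
def Join (X Y : Alg.{u} → Prop) : Alg.{u} → Prop :=
  fun A => ∀ W : Alg.{u} → Prop, IsVariety W → Sub X W → Sub Y W → W A

/-- The class `ZM`: the implication zroupoids with `x → y = 0`. -/
def ZM : Alg.{u} → Prop := fun A => A.IsIZ ∧ ∀ x y, A.imp x y = A.zero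

/-- The class `IZ` of all implication zroupoids. -/
def IZ : Alg.{u} → Prop := fun A => A.IsIZ

/-- The class of the implication zroupoids with `x'' = x`. -/
def Inv : Alg.{u} → Prop := fun A => A.IsIZ ∧ ∀ x, A.pr (A.pr x) = x

theorem four {A : Type u} (f : A → A → A) (z : A)
    (h : ∀ x y w, f (f x y) w = f (f (f (f w z) x) (f (f y w) z)) z)
    (h0 : f (f z z) z = z) (x : A) : f (f (f (f x z) z) z) z = f (f x z) z := by
  grind (ematch := 20) (gen := 12) (instances := 20000)

theorem Alg.IsIZ.four {A : Alg.{u}} (h : A.IsIZ) (x : A.carrier) :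
    A.pr (A.pr (A.pr (A.pr x))) = A.pr (A.pr x) :=
  ZMJoin.four A.imp A.zero h.1 h.2 x

/-- In an implication zroupoid, `((x → y) → z)'' = (x → y) → z`. -/
theorem Alg.IsIZ.pr_pr {A : Alg.{u}} (h : A.IsIZ) (x y z : A.carrier) :
    A.pr (A.pr (A.imp (A.imp x y) z)) = A.imp (A.imp x y) z := by
  obtain ⟨w, hw⟩ : ∃ w, A.imp (A.imp x y) z = A.pr (A.pr w) := by
    refine ⟨A.imp (A.imp (A.pr (A.pr (A.imp y z))) (A.pr z)) (A.pr (A.imp x (A.pr (A.imp y z)))),
      ?_⟩
    rw [h.1 x y z]
    congr 1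
    rw [h.1 (A.pr z) x (A.pr (A.imp y z))]
  rw [hw]
  exact h.four w

theorem isIZ_prod {I : Type u} (A : I → Alg.{u}) (h : ∀ i, (A i).IsIZ) : (prod A).IsIZ :=
  ⟨fun x y z => funext fun i => (h i).1 (x i) (y i) (z i), funext fun i => (h i).2⟩

theorem IsHom.pr {A B : Alg.{u}} {f : A.carrier → B.carrier} (hf : IsHom A B f) (x : A.carrier) :
    f (A.pr x) = B.pr (f x) := by
  unfold Alg.pr; rw [hf.1, hf.2]

theorem isIZ_sub {A B : Alg.{u}} {f : A.carrier → B.carrier} (hf : IsHom A B f)
    (hi : Function.Injective f) (h : B.IsIZ) : A.IsIZ := by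
  refine ⟨fun x y z => hi ?_, hi ?_⟩
  · simp only [hf.1, hf.pr]; exact h.1 _ _ _
  · simp only [hf.pr, hf.2]; exact h.2

theorem isIZ_quot {A B : Alg.{u}} {f : A.carrier → B.carrier} (hf : IsHom A B f)
    (hs : Function.Surjective f) (h : A.IsIZ) : B.IsIZ := by
  refine ⟨fun x y z => ?_, ?_⟩
  · obtain ⟨x, rfl⟩ := hs x
    obtain ⟨y, rfl⟩ := hs y
    obtain ⟨z, rfl⟩ := hs z
    simp only [← hf.1, ← hf.pr]
    rw [h.1]
  · rw [← hf.2, ← hf.pr, ← hf.pr, h.2]

/-- The class of all implication zroupoids is a variety. -/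
theorem isVariety_IZ : IsVariety IZ.{u} where
  iz _ h := h
  sub _ _ _ hf hi h := isIZ_sub hf hi h
  quot _ _ _ hf hs h := isIZ_quot hf hs h
  prod A h := isIZ_prod A h

/-- `x'' = x` defines a variety. -/
theorem isVariety_Inv : IsVariety Inv.{u} where
  iz _ h := h.1
  sub A B f hf hi h := by
    refine ⟨isIZ_sub hf hi h.1, fun x => hi ?_⟩
    rw [hf.pr, hf.pr, h.2]
  quot A B f hf hs h := by
    refine ⟨isIZ_quot hf hs h.1, fun x => ?_⟩
    obtain ⟨x, rfl⟩ := hs x
    rw [← hf.pr, ← hf.pr, h.2]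
  prod A h := ⟨isIZ_prod A fun i => (h i).1, fun x => funext fun i => (h i).2 (x i)⟩

/-- `ZM` is a variety. -/
theorem isVariety_ZM : IsVariety ZM.{u} where
  iz _ h := h.1
  sub A B f hf hi h := by
    refine ⟨isIZ_sub hf hi h.1, fun x y => hi ?_⟩
    rw [hf.1, hf.2, h.2]
  quot A B f hf hs h := by
    refine ⟨isIZ_quot hf hs h.1, fun x y => ?_⟩
    obtain ⟨x, rfl⟩ := hs x
    obtain ⟨y, rfl⟩ := hs y
    rw [← hf.1, h.2, hf.2]
  prod A h := ⟨isIZ_prod A fun i => (h i).1, fun x y => funext fun i => (h i).2 (x i) (y i)⟩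

/-- The join is a variety. -/
theorem isVariety_join {X Y : Alg.{u} → Prop} (hX : IsVariety X) (hY : IsVariety Y) :
    IsVariety (Join X Y) where
  iz A h := h IZ isVariety_IZ hX.iz hY.iz
  sub A B f hf hi h := fun W hW h1 h2 => hW.sub A B f hf hi (h W hW h1 h2)
  quot A B f hf hs h := fun W hW h1 h2 => hW.quot A B f hf hs (h W hW h1 h2)
  prod A h := fun W hW h1 h2 => hW.prod A fun i => h i W hW h1 h2

/-- The join is the least upper bound in the lattice of varieties. -/
theorem join_isLub (X Y : Alg.{u} → Prop) : Sub X (Join X Y) ∧ Sub Y (Join X Y) ∧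
    ∀ W, IsVariety W → Sub X W → Sub Y W → Sub (Join X Y) W :=
  ⟨fun _ hA _ _ h1 _ => h1 _ hA, fun _ hA _ _ _ h2 => h2 _ hA,
    fun W hW h1 h2 _ hA => hA W hW h1 h2⟩

/-- The two-element algebra `{0, 1}` with `x → y = 0`. -/
def two : Alg.{u} where
  carrier := ULift.{u} Bool
  imp _ _ := ⟨false⟩
  zero := ⟨false⟩

theorem two_mem : ZM two.{u} := ⟨⟨fun _ _ _ => rfl, rfl⟩, fun _ _ => rfl⟩

theorem two_not_inv : ¬ Inv two.{u} := fun h => by
  have := h.2 ⟨true⟩
  simp [Alg.pr, two] at this

/-- The elements of the subalgebra generated by `a`. -/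
inductive Gen (A : Alg.{u}) (a : A.carrier) : A.carrier → Prop
  | base : Gen A a a
  | zero : Gen A a A.zero
  | imp (x y : A.carrier) : Gen A a x → Gen A a y → Gen A a (A.imp x y)

/-- The subalgebra generated by `a`. -/
def gen (A : Alg.{u}) (a : A.carrier) : Alg.{u} where
  carrier := {x : A.carrier // Gen A a x}
  imp x y := ⟨A.imp x.1 y.1, Gen.imp _ _ x.2 y.2⟩
  zero := ⟨A.zero, Gen.zero⟩

/-- If `a'' ≠ a`, then `a` is neither `0` nor a value `x → y` in the subalgebra generated by
`a`. -/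
theorem not_value {A : Alg.{u}} (h : A.IsIZ) {a : A.carrier} (ha : A.pr (A.pr a) ≠ a) :
    a ≠ A.zero ∧ ∀ x y, Gen A a x → a ≠ A.imp x y := by
  refine ⟨fun h0 => ha (by rw [h0]; exact h.2), fun x y hx hxy => ha ?_⟩
  cases hx with
  | base =>
    have h1 : a = A.imp (A.imp a y) y := by rw [← hxy]; exact hxy
    have h2 := h.pr_pr a y y
    rw [← h1] at h2
    exact h2
  | zero =>
    have h1 : a = A.imp (A.imp (A.pr A.zero) A.zero) y := by
      have : A.imp (A.pr A.zero) A.zero = A.zero := h.2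
      rw [this]; exact hxy
    have h2 := h.pr_pr (A.pr A.zero) A.zero y
    rw [← h1] at h2
    exact h2
  | imp u v hu hv =>
    have h2 := h.pr_pr u v y
    rw [← hxy] at h2
    exact h2

/-- A variety that contains an algebra with `a'' ≠ a` contains the two-element algebra. -/
theorem two_of_not_inv {X : Alg.{u} → Prop} (hX : IsVariety X) {A : Alg.{u}} (hA : X A)
    {a : A.carrier} (ha : A.pr (A.pr a) ≠ a) : X two := by
  classical
  have h := hX.iz A hA
  obtain ⟨h0, h1⟩ := not_value h ha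
  have hgen : X (gen A a) :=
    hX.sub (gen A a) A Subtype.val ⟨fun _ _ => rfl, rfl⟩ Subtype.val_injective hA
  refine hX.quot (gen A a) two (fun x => ⟨decide (x.1 = a)⟩) ⟨fun x y => ?_, ?_⟩ ?_ hgen
  · have : ¬ A.imp x.1 y.1 = a := fun e => h1 x.1 y.1 x.2 e.symm
    simp [gen, two, this]
  · have : ¬ A.zero = a := fun e => h0 e.symm
    simp [gen, two, this]
  · rintro ⟨b⟩
    cases b with
    | true => exact ⟨⟨a, Gen.base⟩, by simp⟩
    | false =>
      refine ⟨⟨A.zero, Gen.zero⟩, ?_⟩
      have : ¬ A.zero = a := fun e => h0 e.symm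
      simp [this]

/-- A variety that contains the two-element algebra contains `ZM`. -/
theorem zm_of_two {X : Alg.{u} → Prop} (hX : IsVariety X) (h2 : X two) : Sub ZM X := by
  classical
  intro B hB
  refine hX.sub B (prod fun _ : B.carrier => two)
    (fun b c => ⟨decide (b = c ∧ b ≠ B.zero)⟩) ⟨fun x y => ?_, ?_⟩ ?_ (hX.prod _ fun _ => h2)
  · funext c
    simp [prod, two, hB.2]
  · funext c
    simp [prod, two]
  · intro x y hxy
    by_contra hne
    have hx := congrFun hxy x
    have hy := congrFun hxy y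
    simp only [ULift.up.injEq, decide_eq_decide] at hx hy
    by_cases h0 : x = B.zero
    · have hy0 : y ≠ B.zero := fun e => hne (h0.trans e.symm)
      exact hne (hy.2 ⟨trivial, hy0⟩).1
    · exact hne (hx.1 ⟨trivial, h0⟩).1.symm

/-- A variety `X` of implication zroupoids does not contain `ZM` if and only if it satisfies
`x'' = x`. -/
theorem not_zm_iff {X : Alg.{u} → Prop} (hX : IsVariety X) : ¬ Sub ZM X ↔ Sub X Inv := by
  constructor
  · intro h A hA
    refine ⟨hX.iz A hA, fun a => ?_⟩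
    by_contra ha
    exact h (zm_of_two hX (two_of_not_inv hX hA ha))
  · intro h h'
    exact two_not_inv (h _ (h' _ two_mem))

/-- **Q1 of MP_5bed1d is true.** If `X` and `Y` are varieties of implication zroupoids that do
not contain `ZM`, then the variety `X ∨ Y` generated by `X ∪ Y` does not contain `ZM`. -/
theorem result (X Y : Alg.{u} → Prop) (hX : IsVariety X) (hY : IsVariety Y)
    (h1 : ¬ Sub ZM X) (h2 : ¬ Sub ZM Y) : ¬ Sub ZM (Join X Y) := by
  rw [not_zm_iff (isVariety_join hX hY)]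
  exact (join_isLub X Y).2.2 Inv isVariety_Inv ((not_zm_iff hX).1 h1) ((not_zm_iff hY).1 h2)

end Pool.Agent.Results.MP_5bed1d_al.ZMJoin
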